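import Mathlib

/-!
# MP_6800d9_co: translative covering of the unit square by rectangles of total area 3

Moser (1966): does every family of axis-parallel rectangles whose largest side length is `1` and
whose total area is `3` cover the unit square using translations only?

We prove: yes.  (And the constant `3` cannot be lowered.)  One rectangle, of width exactly `1` say, is
kept as a horizontal strip; all others are placed greedily by decreasing height on shelves.
-/

set_option autoImplicit false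

namespace Pool.Agent.Results.MP_6800d9_co.MoserRectangles

/-- The translate by `v` of the rectangle `[0,a] × [0,b]`. -/
def Rect (a b : ℝ) (v : ℝ × ℝ) : Set (ℝ × ℝ) :=
  Set.Icc v.1 (v.1 + a) ×ˢ Set.Icc v.2 (v.2 + b)

/-- The closed unit square. -/
def unitSquare : Set (ℝ × ℝ) := Set.Icc (0 : ℝ) 1 ×ˢ Set.Icc (0 : ℝ) 1

/-- The family of rectangles of widths `w i` and heights `h i` covers the unit square
(by translations only). -/
def Covers {ι : Type} (w h : ι → ℝ) : Prop :=
  ∃ v : ι → ℝ × ℝ, unitSquare ⊆ ⋃ i, Rect (w i) (h i) (v i)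

/-- The shelf lemma: placing the rectangles of a finite family by decreasing height on shelves. -/
theorem shelf {ι : Type} (w h : ι → ℝ) (hw : ∀ i, 0 < w i ∧ w i ≤ 1)
    (hh : ∀ i, 0 < h i) (s : ℝ) :
    ∀ (n : ℕ) (F : Finset ι), F.card = n → ∀ (x y H : ℝ), 0 ≤ x → x < 1 → 0 < H →
      (∀ i ∈ F, h i ≤ H) → (1 - x) * H + 2 * (s - y) ≤ ∑ i ∈ F, w i * h i →
      ∃ v : ι → ℝ × ℝ, ∀ p : ℝ × ℝ, 0 ≤ p.1 → p.1 ≤ 1 → y ≤ p.2 → p.2 ≤ s →
        (p.1 < x ∧ p.2 ≤ y + H) ∨ ∃ i ∈ F, p ∈ Rect (w i) (h i) (v i) := by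
  classical
  intro n
  induction n with
  | zero =>
    intro F hF x y H hx0 hx1 hH _ hA
    rw [Finset.card_eq_zero] at hF
    subst hF
    simp only [Finset.sum_empty] at hA
    have h1 : 0 < (1 - x) * H := mul_pos (by linarith) hH
    refine ⟨fun _ => 0, fun p _ _ h3 h4 => ?_⟩
    exfalso
    linarith
  | succ n ih =>
    intro F hF x y H hx0 hx1 hH hFH hA
    have hne : F.Nonempty := by
      rw [← Finset.card_pos]; omega
    obtain ⟨i, hiF, hmax⟩ := Finset.exists_max_image F h hne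
    have hcard : (F.erase i).card = n := by
      rw [Finset.card_erase_of_mem hiF]; omega
    have hsum : ∑ j ∈ F.erase i, w j * h j = (∑ j ∈ F, w j * h j) - w i * h i := by
      rw [← Finset.add_sum_erase F _ hiF]; ring
    have hwi := hw i
    have hhi := hh i
    have hiH := hFH i hiF
    have hle : ∀ j ∈ F.erase i, h j ≤ h i := fun j hj => hmax j (Finset.mem_of_mem_erase hj)
    by_cases hc : x + w i < 1
    · -- continue the current shelf
      obtain ⟨v, hv⟩ := ih (F.erase i) hcard (x + w i) y (h i) (by linarith) hc hhi hle (by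
        rw [hsum]
        have : (1 - x) * h i ≤ (1 - x) * H := mul_le_mul_of_nonneg_left hiH (by linarith)
        nlinarith)
      refine ⟨Function.update v i (x, y), fun p h1 h2 h3 h4 => ?_⟩
      rcases hv p h1 h2 h3 h4 with ⟨h5, h6⟩ | ⟨j, hj, hjp⟩
      · by_cases h7 : p.1 < x
        · left
          exact ⟨h7, by linarith⟩
        · right
          refine ⟨i, hiF, ?_⟩
          rw [Function.update_self]
          exact ⟨⟨not_lt.mp h7, h5.le⟩, ⟨h3, h6⟩⟩
      · right
        refine ⟨j, Finset.mem_of_mem_erase hj, ?_⟩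
        rw [Function.update_of_ne (Finset.ne_of_mem_erase hj)]
        exact hjp
    · -- the current shelf is complete
      obtain ⟨v, hv⟩ := ih (F.erase i) hcard 0 (y + h i) (h i) le_rfl one_pos hhi hle (by
        rw [hsum]
        have h1 : 0 ≤ (1 - x) * H := mul_nonneg (by linarith) hH.le
        have h2 : w i * h i ≤ 1 * h i := mul_le_mul_of_nonneg_right hwi.2 hhi.le
        linarith)
      refine ⟨Function.update v i (x, y), fun p h1 h2 h3 h4 => ?_⟩
      by_cases h8 : p.2 ≤ y + h i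
      · by_cases h7 : p.1 < x
        · left
          exact ⟨h7, by linarith⟩
        · right
          refine ⟨i, hiF, ?_⟩
          rw [Function.update_self]
          exact ⟨⟨not_lt.mp h7, by simp only; linarith⟩, ⟨h3, h8⟩⟩
      · rcases hv p h1 h2 (not_le.mp h8).le h4 with ⟨h5, _⟩ | ⟨j, hj, hjp⟩
        · exact absurd h1 (not_le.mpr h5)
        · right
          refine ⟨j, Finset.mem_of_mem_erase hj, ?_⟩
          rw [Function.update_of_ne (Finset.ne_of_mem_erase hj)]
          exact hjp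

/-- The case in which some rectangle has width exactly one. -/
theorem covers_of_width_one {ι : Type} (w h : ι → ℝ) (hw : ∀ i, 0 < w i ∧ w i ≤ 1)
    (hh : ∀ i, 0 < h i ∧ h i ≤ 1) (i₀ : ι) (hi₀ : w i₀ = 1) (A : ℝ) (hA : 3 ≤ A)
    (hs : HasSum (fun i => w i * h i) A) : Covers w h := by
  classical
  have h0 := hh i₀
  -- a finite subfamily of large total area
  have hev : ∀ᶠ F in Filter.atTop, A - h i₀ < ∑ i ∈ F, w i * h i :=
    hs.eventually_const_lt (by linarith)
  obtain ⟨F, hF⟩ := hev.exists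
  have hF' : A - 2 * h i₀ < ∑ i ∈ F.erase i₀, w i * h i := by
    by_cases hm : i₀ ∈ F
    · have := Finset.add_sum_erase F (fun i => w i * h i) hm
      simp only [hi₀, one_mul] at this
      linarith
    · rw [Finset.erase_eq_of_notMem hm]; linarith
  obtain ⟨v, hv⟩ := shelf w h hw (fun i => (hh i).1) (1 - h i₀) _ (F.erase i₀) rfl 0 0 1
    le_rfl one_pos one_pos (fun i _ => (hh i).2) (by linarith)
  refine ⟨Function.update v i₀ (0, 1 - h i₀), fun p hp => ?_⟩
  obtain ⟨⟨h1, h2⟩, ⟨h3, h4⟩⟩ := hp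
  rw [Set.mem_iUnion]
  by_cases h5 : p.2 ≤ 1 - h i₀
  · rcases hv p h1 h2 h3 h5 with ⟨h6, _⟩ | ⟨j, hj, hjp⟩
    · exact absurd h1 (not_le.mpr h6)
    · refine ⟨j, ?_⟩
      rw [Function.update_of_ne (Finset.ne_of_mem_erase hj)]
      exact hjp
  · refine ⟨i₀, ?_⟩
    rw [Function.update_self]
    refine ⟨⟨h1, ?_⟩, ⟨(not_le.mp h5).le, ?_⟩⟩
    · simp only [hi₀]; linarith
    · simp only; linarith

/-- Exchanging the two coordinates. -/
theorem covers_swap {ι : Type} (w h : ι → ℝ) (hc : Covers h w) : Covers w h := by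
  obtain ⟨v, hv⟩ := hc
  refine ⟨fun i => (v i).swap, fun p hp => ?_⟩
  have := hv (show p.swap ∈ unitSquare from ⟨hp.2, hp.1⟩)
  rw [Set.mem_iUnion] at this ⊢
  obtain ⟨i, hi⟩ := this
  exact ⟨i, ⟨hi.2, hi.1⟩⟩

/-- Moser's question has a positive answer, for every family (finite or infinite) and every total
area at least `3`. -/
theorem covers {ι : Type} (w h : ι → ℝ) (hw : ∀ i, 0 < w i ∧ w i ≤ 1)
    (hh : ∀ i, 0 < h i ∧ h i ≤ 1) (h1 : ∃ i, w i = 1 ∨ h i = 1) (A : ℝ) (hA : 3 ≤ A)
    (hs : HasSum (fun i => w i * h i) A) : Covers w h := by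
  obtain ⟨i, hi | hi⟩ := h1
  · exact covers_of_width_one w h hw hh i hi A hA hs
  · refine covers_swap w h (covers_of_width_one h w hh hw i hi A hA ?_)
    simpa only [mul_comm] using hs

/-- Widths of the sharpness example: three squares of side `1 - d` and one strip of width `1`. -/
noncomputable def exW (d : ℝ) : Option (Fin 3) → ℝ
  | none => 1
  | some _ => 1 - d

/-- Heights of the sharpness example: the strip has height `d / 2`. -/
noncomputable def exH (d : ℝ) : Option (Fin 3) → ℝ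
  | none => d / 2
  | some _ => 1 - d

/-- Each of the two vertical sides of the unit square must be met by two different squares. -/
theorem two_squares {d : ℝ} (hd0 : 0 < d) (hd : d < 1 / 2) (v : Option (Fin 3) → ℝ × ℝ)
    (e : ℝ) (he0 : 0 ≤ e) (he1 : e ≤ 1)
    (hv : unitSquare ⊆ ⋃ i, Rect (exW d i) (exH d i) (v i)) :
    ∃ i j : Fin 3, i ≠ j ∧ (∃ y, (e, y) ∈ Rect (1 - d) (1 - d) (v (some i))) ∧
      ∃ y, (e, y) ∈ Rect (1 - d) (1 - d) (v (some j)) := by
  -- a point of the edge lies in the strip or in a square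
  have key : ∀ y : ℝ, 0 ≤ y → y ≤ 1 →
      ((v none).2 ≤ y ∧ y ≤ (v none).2 + d / 2) ∨
        ∃ i : Fin 3, (e, y) ∈ Rect (1 - d) (1 - d) (v (some i)) := by
    intro y hy0 hy1
    have h := hv (show ((e, y) : ℝ × ℝ) ∈ unitSquare from ⟨⟨he0, he1⟩, ⟨hy0, hy1⟩⟩)
    rw [Set.mem_iUnion] at h
    obtain ⟨i, hi⟩ := h
    cases i with
    | none => left; exact hi.2
    | some i => right; exact ⟨i, hi⟩
  -- two far apart points of the edge which are both in squares give two different squares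
  have sep : ∀ y z : ℝ, y + (1 - d) < z →
      (∃ i : Fin 3, (e, y) ∈ Rect (1 - d) (1 - d) (v (some i))) →
      (∃ i : Fin 3, (e, z) ∈ Rect (1 - d) (1 - d) (v (some i))) →
      ∃ i j : Fin 3, i ≠ j ∧ (∃ y, (e, y) ∈ Rect (1 - d) (1 - d) (v (some i))) ∧
        ∃ y, (e, y) ∈ Rect (1 - d) (1 - d) (v (some j)) := by
    rintro y z hyz ⟨i, hi⟩ ⟨j, hj⟩
    refine ⟨i, j, ?_, ⟨y, hi⟩, ⟨z, hj⟩⟩
    rintro rfl
    have h1 := hi.2.1
    have h2 := hj.2.2
    simp only at h1 h2
    linarith
  rcases key 0 le_rfl zero_le_one with ⟨h1, h2⟩ | hs0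
  · -- the strip contains the lower corner
    rcases key (3 * d / 4) (by linarith) (by linarith) with ⟨h3, h4⟩ | hs1
    · linarith
    · rcases key 1 zero_le_one le_rfl with ⟨h5, h6⟩ | hs2
      · linarith
      · exact sep _ _ (by linarith) hs1 hs2
  · rcases key 1 zero_le_one le_rfl with ⟨h5, h6⟩ | hs2
    · rcases key (1 - 3 * d / 4) (by linarith) (by linarith) with ⟨h3, h4⟩ | hs1
      · linarith
      · exact sep _ _ (by linarith) hs0 hs1
    · exact sep _ _ (by linarith) hs0 hs2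

/-- The sharpness example does not cover the unit square. -/
theorem not_covers_example {d : ℝ} (hd0 : 0 < d) (hd : d < 1 / 2) :
    ¬ Covers (exW d) (exH d) := by
  rintro ⟨v, hv⟩
  obtain ⟨i, j, hij, hi, hj⟩ := two_squares hd0 hd v 0 le_rfl zero_le_one hv
  obtain ⟨k, l, hkl, hk, hl⟩ := two_squares hd0 hd v 1 zero_le_one le_rfl hv
  have no : ∀ i : Fin 3, (∃ y, ((0 : ℝ), y) ∈ Rect (1 - d) (1 - d) (v (some i))) →
      (∃ y, ((1 : ℝ), y) ∈ Rect (1 - d) (1 - d) (v (some i))) → False := by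
    rintro i ⟨y, hy⟩ ⟨z, hz⟩
    have h1 := hy.1.1
    have h2 := hz.1.2
    simp only at h1 h2
    linarith
  have pig : ∀ i j k l : Fin 3, i ≠ j → k ≠ l → i = k ∨ i = l ∨ j = k ∨ j = l := by decide
  rcases pig i j k l hij hkl with rfl | rfl | rfl | rfl
  · exact no _ hi hk
  · exact no _ hi hl
  · exact no _ hj hk
  · exact no _ hj hl

/-- **Moser's question (1966), answered affirmatively.**  Every family (finite or infinite, indexed
by an arbitrary type) of axis-parallel rectangles whose largest side length is `1` and whose total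
area is at least `3` covers the unit square by translations.  The constant `3` is best possible
already for families of four rectangles. -/
theorem result :
    (∀ (ι : Type) (w h : ι → ℝ), (∀ i, 0 < w i ∧ w i ≤ 1) → (∀ i, 0 < h i ∧ h i ≤ 1) →
      (∃ i, w i = 1 ∨ h i = 1) →
      ∀ A : ℝ, 3 ≤ A → HasSum (fun i => w i * h i) A →
        ∃ v : ι → ℝ × ℝ,
          Set.Icc (0 : ℝ) 1 ×ˢ Set.Icc (0 : ℝ) 1 ⊆
            ⋃ i, Set.Icc (v i).1 ((v i).1 + w i) ×ˢ Set.Icc (v i).2 ((v i).2 + h i)) ∧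
    (∀ ε : ℝ, 0 < ε → ∃ w h : Option (Fin 3) → ℝ,
      (∀ i, 0 < w i ∧ w i ≤ 1) ∧ (∀ i, 0 < h i ∧ h i ≤ 1) ∧ (∃ i, w i = 1 ∨ h i = 1) ∧
      3 - ε < ∑ i, w i * h i ∧
      ¬ ∃ v : Option (Fin 3) → ℝ × ℝ,
          Set.Icc (0 : ℝ) 1 ×ˢ Set.Icc (0 : ℝ) 1 ⊆
            ⋃ i, Set.Icc (v i).1 ((v i).1 + w i) ×ˢ Set.Icc (v i).2 ((v i).2 + h i)) := by
  refine ⟨fun ι w h hw hh h1 A hA hs => covers w h hw hh h1 A hA hs, fun ε hε => ?_⟩
  obtain ⟨d, hd0, hd1, hd2⟩ : ∃ d : ℝ, 0 < d ∧ d < 1 / 2 ∧ 6 * d < ε := by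
    refine ⟨min (1 / 4) (ε / 12), lt_min (by norm_num) (by positivity), ?_, ?_⟩
    · exact lt_of_le_of_lt (min_le_left _ _) (by norm_num)
    · have := min_le_right (1 / 4 : ℝ) (ε / 12)
      linarith
  refine ⟨exW d, exH d, ?_, ?_, ⟨none, Or.inl rfl⟩, ?_, not_covers_example hd0 hd1⟩
  · rintro (_ | i)
    · exact ⟨one_pos, le_rfl⟩
    · exact ⟨by simp only [exW]; linarith, by simp only [exW]; linarith⟩
  · rintro (_ | i)
    · exact ⟨by simp only [exH]; linarith, by simp only [exH]; linarith⟩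
    · exact ⟨by simp only [exH]; linarith, by simp only [exH]; linarith⟩
  · rw [Fintype.sum_option]
    simp only [exW, exH, Finset.sum_const, Finset.card_univ, Fintype.card_fin, nsmul_eq_mul]
    push_cast
    nlinarith [sq_nonneg d]

end Pool.Agent.Results.MP_6800d9_co.MoserRectangles

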